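import Pool.Agent.Helper28.TL.G1b

/-! TL project, piece G1: tables (part c) -/

set_option autoImplicit false
set_option maxRecDepth 100000

namespace Pool.Agent.Helper79.TL.G1

open Pool.Agent.Helper79.TL

theorem chk6 : chk 6 = true := by decide +kernel

theorem chk7 : chk 7 = true := by decide +kernel

theorem chk8 : chk 8 = true := by decide +kernel

theorem chk9 : chk 9 = true := by decide +kernel

theorem chk10 : chk 10 = true := by decide +kernel

theorem lens : lB.length = 126 ∧ ∀ i : Fin 11, (lT.getD i []).length = 126 := by decide +kernel

theorem iB_lt : ∀ b : GPre.BI, iB b < 126 := by decide +kernel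

theorem iB_dB : ∀ n : Fin 126, iB (dB n) = n := by decide +kernel

theorem iH_dH : ∀ n : Fin 320, iH (dH n) = n := by decide +kernel

end Pool.Agent.Helper79.TL.G1
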