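import Pool.Agent.Helper28.TL.G1a
import Pool.Agent.Helper28.TL.G1c

/-! TL project, piece G1: tables -/

set_option autoImplicit false

namespace Pool.Agent.Helper79.TL.G1

open Pool.Agent.Helper79.TL

theorem chk_all (i : Fin 11) : chk i = true := by
  fin_cases i
  · exact chk0
  · exact chk1
  · exact chk2
  · exact chk3
  · exact chk4
  · exact chk5
  · exact chk6
  · exact chk7
  · exact chk8
  · exact chk9
  · exact chk10

theorem mem_zip {α β : Type} (l : List α) (m : List β) (n : ℕ) (hl : n < l.length)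
    (hm : n < m.length) (a0 : α) (b0 : β) : (l.getD n a0, m.getD n b0) ∈ l.zip m := by
  have h : n < (l.zip m).length := by rw [List.length_zip]; omega
  have h2 : (l.zip m)[n] = (l[n], m[n]) := List.getElem_zip
  rw [List.getD_eq_getElem _ _ hl, List.getD_eq_getElem _ _ hm, ← h2]
  exact List.getElem_mem h

theorem lT_ok : ∀ (i : Fin 11) (b : GPre.BI),
    mulN (cgen i) (cB b) = mulN (cB (dB ((lT.getD i []).getD (iB b) (0, 0)).1))
      (chel (dH ((lT.getD i []).getD (iB b) (0, 0)).2)) := by
  intro i b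
  have hb := iB_lt b
  have h1 : iB b < lB.length := by rw [lens.1]; exact hb
  have h2 : iB b < (lT.getD i []).length := by rw [lens.2 i]; exact hb
  have hm := mem_zip lB (lT.getD i []) (iB b) h1 h2 0 (0, 0)
  have hc := chk_all i
  unfold chk at hc
  rw [List.all_eq_true] at hc
  have h3 := hc _ hm
  generalize (lT.getD i []).getD (iB b) (0, 0) = q at h3 ⊢
  obtain ⟨u, v⟩ := q
  rw [Bool.and_eq_true, Bool.and_eq_true] at h3
  obtain ⟨h4, h5, h6⟩ := h3
  have h4' : mulN (cgen i) (lB.getD (iB b) 0) = mulN (lB.getD u 0) (lH.getD v 0) :=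
    Nat.eq_of_beq_eq_true h4
  have h5' : u < 126 := by
    have := h5
    simpa [Nat.blt_eq] using this
  have h6' : v < 320 := by
    have := h6
    simpa [Nat.blt_eq] using this
  have e1 : iB (dB u) = u := iB_dB ⟨u, h5'⟩
  have e2 : iH (dH v) = v := iH_dH ⟨v, h6'⟩
  have g1 := lB_ok b
  have g2 := lB_ok (dB u)
  have g3 := lH_ok (dH v)
  rw [e1] at g2
  rw [e2] at g3
  show mulN (cgen i) (cB b) = mulN (cB (dB u)) (chel (dH v))
  rw [← g1, ← g2, ← g3]
  exact h4'

end Pool.Agent.Helper79.TL.G1
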