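import Pool.Agent.Helper79.TL.Grp2

/-! TL project, piece G1: tables (part a) -/

set_option autoImplicit false
set_option maxRecDepth 100000

namespace Pool.Agent.Helper79.TL.G1

open Pool.Agent.Helper79.TL

theorem lB_ok : ∀ b : GPre.BI, lB.getD (iB b) 0 = cB b := by
  decide +kernel

theorem lH_ok0 : ∀ q : Fin 16 × Fin 5 × Fin 2, lH.getD (iH (0, q)) 0 = chel (0, q) := by
  decide +kernel

theorem lH_ok1 : ∀ q : Fin 16 × Fin 5 × Fin 2, lH.getD (iH (1, q)) 0 = chel (1, q) := by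
  decide +kernel

theorem lH_ok : ∀ p : GPre.HI, lH.getD (iH p) 0 = chel p := by
  rintro ⟨e, q⟩
  fin_cases e
  · exact lH_ok0 q
  · exact lH_ok1 q

end Pool.Agent.Helper79.TL.G1
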