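import Pool.Agent.Helper79.TL.Grp2

/-! TL project, piece G1: tables (part b) -/

set_option autoImplicit false
set_option maxRecDepth 100000

namespace Pool.Agent.Helper79.TL.G1

open Pool.Agent.Helper79.TL

/-- the table of the `i`-th generator is correct -/
noncomputable def chk (i : Fin 11) : Bool :=
  (lB.zip (lT.getD i [])).all fun p =>
    Nat.beq (mulN (cgen i) p.1) (mulN (lB.getD p.2.1 0) (lH.getD p.2.2 0)) &&
      (Nat.blt p.2.1 126 && Nat.blt p.2.2 320)

theorem chk0 : chk 0 = true := by decide +kernel

theorem chk1 : chk 1 = true := by decide +kernel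

theorem chk2 : chk 2 = true := by decide +kernel

theorem chk3 : chk 3 = true := by decide +kernel

theorem chk4 : chk 4 = true := by decide +kernel

theorem chk5 : chk 5 = true := by decide +kernel

end Pool.Agent.Helper79.TL.G1
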